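import Mathlib
import Pool.Agent.LLO.Main

set_option autoImplicit false

/-!
# Lower bounds for Liouville sums in short intervals at almost all scales
-/

open Finset Filter

namespace Pool.Agent.Results.MP_f7161d_nt.LogBoundAlmostAllScales

/-- Liouville's function. -/
def lam (n : ℕ) : ℝ := (-1) ^ (ArithmeticFunction.cardFactors n)

/-- `I(X, H) = ∫_X^{2X} |∑_{x ≤ n ≤ x + H} λ(n)| dx`. -/
noncomputable def I (X H : ℝ) : ℝ := ∫ x in X..(2 * X), |∑ n ∈ Icc ⌈x⌉₊ ⌊x + H⌋₊, lam n|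

/-- `E` has logarithmic density zero. -/
def LogZero (E : Set ℕ) : Prop := ∀ ε : ℝ, 0 < ε → ∃ Z0 : ℕ, ∀ Z : ℕ, Z0 ≤ Z → open Classical in
  ∑ m ∈ (Icc 1 Z).filter (fun m => m ∈ E), 1 / (m : ℝ) ≤ ε * Real.log Z

/-- There are a set `E` of logarithmic density zero and `ω(X) → ∞` such that for all real `X ≥ 1` with `⌊X⌋ ∉ E`:
`I(X,H) + I(X,H+t) ≥ (1/10) log t · X` for all real `H ≥ 0`, `1 ≤ t ≤ ω`; `I(X,H) ≥ (1/10) log H · X` for `1 ≤ H ≤ ω`; and for every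
`M ≥ 0` (if `ω ≥ 1`) all `H ∈ [M, M+ω]` outside an interval of length `√ω` have `I(X,H) ≥ (1/40) log ω · X`. -/
theorem result : ∃ (E : Set ℕ) (ω : ℕ → ℝ), LogZero E ∧ Tendsto ω atTop atTop ∧ ∀ X : ℝ, 1 ≤ X → ⌊X⌋₊ ∉ E →
    (∀ H t : ℝ, 0 ≤ H → 1 ≤ t → t ≤ ω ⌊X⌋₊ → (1 / 10) * Real.log t * X ≤ I X H + I X (H + t)) ∧
    (∀ H : ℝ, 1 ≤ H → H ≤ ω ⌊X⌋₊ → (1 / 10) * Real.log H * X ≤ I X H) ∧
    (∀ M : ℝ, 0 ≤ M → 1 ≤ ω ⌊X⌋₊ → ∃ a : ℝ, ∀ H ∈ Set.Icc M (M + ω ⌊X⌋₊), H ∉ Set.Icc a (a + √(ω ⌊X⌋₊)) →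
      (1 / 40) * Real.log (ω ⌊X⌋₊) * X ≤ I X H) :=
  Pool.Agent.LLO.main

end Pool.Agent.Results.MP_f7161d_nt.LogBoundAlmostAllScales
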